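import Pool.Agent.H.MP_5dc1dd_co.A

namespace Pool.Agent.Results.MP_5dc1dd_co.Q1

open Set Pool.Agent.H.MP_5dc1dd_co

theorem result : ∃ o u v : E, LinearIndependent ℝ ![u, v] ∧ ∃ d, 2 ≤ d ∧ Irr (Par o u v) d := by
  have e : Par 0 !₂[3, 0] !₂[0, 1] = R := by
    ext p
    refine ⟨?_, fun ⟨a, b, c, d⟩ => ⟨p 0 / 3, ⟨by linarith, by linarith⟩, p 1, ⟨c, d⟩, ?_⟩⟩
    · rintro ⟨s, ⟨a, b⟩, t, ⟨c, d⟩, rfl⟩
      simp [R]
      refine ⟨a, by linarith, c, d⟩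
    · ext k
      fin_cases k <;> simp
  have h : MT 2 (fun j => G j false ⁻¹' R) S := ⟨to_countable _, fun p hp => by
    refine Eq.trans ?_ (cnt p)
    congr 1
    ext j
    refine and_congr_right fun hj => ?_
    have := (pre_fr _ R_closed p).mp (hp j hj)
    rw [R_int] at this
    rw [pre_int, R_int]
    simp only [mem_ofPred_eq, R, G0, G1, Bool.false_eq_true, ↓reduceIte] at this ⊢
    exact ⟨fun ⟨a, b, c, d⟩ => ⟨a.le, b, c.le, d⟩, fun ⟨a, b, c, d⟩ => this ⟨a, b.le, c, d.le⟩⟩⟩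
  have sub : interior D ⊆ interior R := interior_mono fun p ⟨a, b, c⟩ =>
    ⟨by linarith, a, b, by linarith⟩
  refine ⟨0, !₂[3, 0], !₂[0, 1], ?_, 2, le_rfl, J, _, S, fun j _ => ⟨(G j false).symm, ?_⟩, h,
    irr h cyc wit cyc_S cyc_ne (fun k j _ => (pre_fr _ R_closed _).mpr ?_) fun k =>
      ⟨(pre_int _ _ _).mpr (sub (wit_in k).1), (pre_int _ _ _).mpr (sub (wit_in k).2)⟩⟩
  · rw [LinearIndependent.pair_iff]
    intro s t q
    have a := congrArg (· 0) q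
    have b := congrArg (· 1) q
    simp at a b
    exact ⟨a, b⟩
  · rw [e, IsometryEquiv.image_symm]
  · have a := wit_gen k j 0
    have b := wit_gen k j 1
    have c := wit_gen k j 3
    push_cast at a b c
    rw [R_int]
    simp only [mem_ofPred_eq, R, G0, G1, Bool.false_eq_true, ↓reduceIte]
    exact fun ⟨p, q, r, s⟩ => ⟨p.lt_of_ne' a.1, q.lt_of_ne c.1, r.lt_of_ne' a.2.1, s.lt_of_ne b.2.1⟩

end Pool.Agent.Results.MP_5dc1dd_co.Q1
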