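import Pool.Agent.H.MP_5dc1dd_co.A

namespace Pool.Agent.Results.MP_5dc1dd_co.Q2

open Set Pool.Agent.H.MP_5dc1dd_co

theorem result : ∃ o u v : E, LinearIndependent ℝ ![u, v] ∧ ∃ d, 2 ≤ d ∧ Irr (Tri o u v) d := by
  have e : Tri !₂[3, 0] !₂[-3, 0] !₂[0, 1] = D := by
    ext p
    refine ⟨?_, fun ⟨a, b, c⟩ => ⟨1 - p 0 / 3, p 1, by linarith, b, by linarith, ?_⟩⟩
    · rintro ⟨s, t, a, b, c, rfl⟩
      simp [D]
      refine ⟨a, b, by linarith⟩
    · ext k
      fin_cases k <;> simp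
      ring
  have h : MT 2 (fun j : J × Bool => G j.1 j.2 ⁻¹' D) (S ×ˢ univ) := ⟨to_countable _, fun p hp => by
    refine Eq.trans ?_ (cnt p)
    rw [← Function.Injective.encard_image (f := fun j : J => (j, decide (A j p < 3 * B j p)))
      fun a b q => (Prod.mk.inj q).1]
    congr 1
    ext ⟨j, s⟩
    simp only [mem_ofPred_eq, mem_image, Prod.mk.injEq, mem_prod, mem_univ, and_true, and_assoc,
      pre_int, D_int, G0, G1]
    constructor
    · rintro ⟨hj, a, b, c⟩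
      refine ⟨j, hj, ?_⟩
      cases s <;> simp at a b c ⊢ <;> refine ⟨?_, ?_, ?_, ?_, ?_⟩ <;> linarith
    · rintro ⟨j, hj, a, b, c, d, rfl, rfl⟩
      have := (pre_fr _ D_closed p).mp (hp (j, decide (A j p < 3 * B j p)) ⟨hj, trivial⟩)
      rw [D_int] at this
      simp only [mem_ofPred_eq, D, G0, G1] at this
      refine ⟨hj, this ?_⟩
      by_cases q : A j p < 3 * B j p <;> simp [q] <;> refine ⟨?_, ?_, ?_⟩ <;> linarith⟩
  refine ⟨!₂[3, 0], !₂[-3, 0], !₂[0, 1], ?_, 2, le_rfl, J × Bool, _, S ×ˢ univ,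
    fun j _ => ⟨(G j.1 j.2).symm, ?_⟩, h,
    irr h (fun k => (cyc k, false)) wit (fun k => ⟨cyc_S k, trivial⟩)
      (fun k q => cyc_ne k (Prod.mk.inj q).1) (fun k j _ => (pre_fr _ D_closed _).mpr ?_) fun k =>
      ⟨(pre_int _ _ _).mpr (wit_in k).1, (pre_int _ _ _).mpr (wit_in k).2⟩⟩
  · rw [LinearIndependent.pair_iff]
    intro s t q
    have a := congrArg (· 0) q
    have b := congrArg (· 1) q
    simp at a b
    exact ⟨a, b⟩
  · rw [e, IsometryEquiv.image_symm]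
  · obtain ⟨j, s⟩ := j
    have a := wit_gen k j 0
    have b := wit_gen k j 1
    have c := wit_gen k j 3
    push_cast at a b c
    rw [D_int]
    simp only [mem_ofPred_eq, D, G0, G1]
    rintro ⟨p, q, r⟩
    refine ⟨p.lt_of_ne fun z => ?_, q.lt_of_ne fun z => ?_, r.lt_of_ne fun z => ?_⟩ <;> cases s <;>
      simp only [Bool.false_eq_true, ↓reduceIte] at z
    exacts [c.1 z, a.1 (by linarith), a.2.1 z.symm, b.2.1 (by linarith), a.2.2 (by linarith),
      a.2.2 (by linarith)]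

end Pool.Agent.Results.MP_5dc1dd_co.Q2
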